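import Mathlib

/-!
A prime `l ≤ 4 ^ D` modulo which `4` is a primitive `D`-th root of unity.
-/

set_option autoImplicit false

namespace Pool.Agent.Lib.MP_9ae5d9_al.X

open Polynomial

theorem le_totient_sq (n : ℕ) (hn : Odd n) : n ≤ Nat.totient n ^ 2 := by
  induction n using Nat.recOnPosPrimePosCoprime with
  | prime_pow p k hp hk =>
    have hp2 : p ≠ 2 := by
      rintro rfl
      exact (Nat.not_even_iff_odd.2 hn) (Nat.even_pow.2 ⟨even_two, hk.ne'⟩)
    have hp3 : 3 ≤ p := by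
      have := hp.two_le
      omega
    rw [Nat.totient_prime_pow hp hk]
    obtain ⟨j, rfl⟩ : ∃ j, k = j + 1 := ⟨k - 1, by omega⟩
    obtain ⟨q, rfl⟩ : ∃ q, p = q + 1 := ⟨p - 1, by omega⟩
    simp only [Nat.add_sub_cancel]
    have h1 : 1 ≤ (q + 1) ^ j := Nat.one_le_pow _ _ (by omega)
    have h2 : q + 1 ≤ q ^ 2 := by nlinarith
    calc (q + 1) ^ (j + 1) = (q + 1) ^ j * 1 * (q + 1) := by ring
      _ ≤ (q + 1) ^ j * (q + 1) ^ j * q ^ 2 :=
          Nat.mul_le_mul (Nat.mul_le_mul_left _ h1) h2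
      _ = ((q + 1) ^ j * q) ^ 2 := by ring
  | zero => simp
  | one => simp
  | coprime a b ha hb hab iha ihb =>
    rw [Nat.totient_mul hab, mul_pow]
    exact Nat.mul_le_mul (iha (Nat.Odd.of_mul_left hn)) (ihb (Nat.Odd.of_mul_right hn))

theorem sq_le_three_pow (x : ℕ) : x ^ 2 ≤ 3 ^ x := by
  induction x with
  | zero => simp
  | succ x ih =>
    rcases Nat.lt_or_ge x 2 with h | h
    · interval_cases x <;> norm_num
    · rw [pow_succ 3 x]
      nlinarith

theorem exists_prime_root (D : ℕ) (hD : 2 ≤ D) :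
    ∃ l : ℕ, l.Prime ∧ l ≤ 4 ^ D ∧ D < l ∧ IsPrimitiveRoot (4 : ZMod l) D := by
  set E : ℤ := (cyclotomic D ℤ).eval 4 with hE
  have h1 : E ∣ 4 ^ D - 1 := by
    have := eval_dvd (cyclotomic.dvd_X_pow_sub_one D ℤ) (x := (4 : ℤ))
    simpa using this
  have h2 : 3 ^ Nat.totient D < E.natAbs := by
    have := sub_one_pow_totient_lt_natAbs_cyclotomic_eval (n := D) (q := 4) (by omega) (by norm_num)
    simpa using this
  have hpos : (0 : ℤ) < 4 ^ D - 1 := by
    have : (4 : ℤ) ^ 1 ≤ 4 ^ D := pow_le_pow_right₀ (by norm_num) (by omega)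
    linarith
  have hodd : ∀ l : ℕ, l.Prime → (l : ℤ) ∣ E → Odd l := by
    intro l hl hlE
    rcases hl.eq_two_or_odd' with rfl | h
    · exfalso
      have h3 : ((2 : ℕ) : ℤ) ∣ 4 ^ D - 1 := hlE.trans h1
      have h4 : ((2 : ℕ) : ℤ) ∣ 4 ^ D := dvd_pow (by norm_num) (by omega)
      have h5 := dvd_sub h4 h3
      norm_num at h5
    · exact h
  have hex : ∃ l : ℕ, l.Prime ∧ (l : ℤ) ∣ E ∧ ¬ l ∣ D := by
    by_contra hcon
    push Not at hcon
    have hsq : Squarefree E.natAbs := by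
      rw [Nat.squarefree_iff_prime_squarefree]
      intro l hl hll
      have hll' : ((l : ℤ)) ^ 2 ∣ E := by
        rw [← Int.natAbs_dvd_natAbs, Int.natAbs_pow, Int.natAbs_natCast, sq]
        exact hll
      have hlE : (l : ℤ) ∣ E := (dvd_pow_self _ two_ne_zero).trans hll'
      obtain ⟨e, he⟩ := hcon l hl hlE
      have hl2 := hl.two_le
      have he0 : 0 < e := by
        rcases Nat.eq_zero_or_pos e with rfl | h
        · omega
        · exact h
      have hmem : e ∈ D.properDivisors := by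
        rw [Nat.mem_properDivisors]
        exact ⟨Dvd.intro_left l he.symm, by nlinarith⟩
      have h3 : ((4 : ℤ) ^ e - 1) * E ∣ 4 ^ D - 1 := by
        have := eval_dvd (X_pow_sub_one_mul_cyclotomic_dvd_X_pow_sub_one_of_dvd ℤ hmem)
          (x := (4 : ℤ))
        simpa using this
      have h4 : (4 : ℤ) ^ D - 1 =
          (4 ^ e - 1) * ∑ i ∈ Finset.range l, (4 ^ e) ^ i * 1 ^ (l - 1 - i) := by
        rw [mul_comm, geom_sum₂_mul, one_pow, ← pow_mul, mul_comm e l, ← he]
      have hne : (4 : ℤ) ^ e - 1 ≠ 0 := by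
        have : (4 : ℤ) ^ 1 ≤ 4 ^ e := pow_le_pow_right₀ (by norm_num) he0
        intro h
        linarith
      rw [h4, mul_dvd_mul_iff_left hne] at h3
      have := Fact.mk hl
      have h5 : (l : ℤ) ∣ 4 ^ e - 1 := by
        have h6 : (l : ℤ) ∣ 4 ^ D - 1 := hlE.trans h1
        rw [← ZMod.intCast_zmod_eq_zero_iff_dvd] at h6 ⊢
        push_cast at h6 ⊢
        rw [he, mul_comm, pow_mul, ZMod.pow_card] at h6
        exact h6
      have h7 : ¬ (l : ℤ) ∣ 4 ^ e := by
        intro h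
        have h8 := dvd_sub h h5
        simp only [sub_sub_cancel] at h8
        exact hl.one_lt.ne' (Int.natAbs_eq_iff.1 (Int.isUnit_iff_natAbs_eq.1
          (isUnit_of_dvd_one h8)) |>.elim (fun h => by exact_mod_cast h) (fun h => by omega))
      have h8 := emultiplicity_geom_sum₂_eq_one (x := (4 : ℤ) ^ e) (y := 1)
        (Nat.prime_iff_prime_int.1 hl) (hodd l hl hlE) h5 h7
      rw [← Nat.cast_one] at h8
      exact (emultiplicity_eq_coe.1 h8).2 (hll'.trans h3)
    have hdvd : E.natAbs ∣ D := by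
      rw [← Nat.prod_primeFactors_of_squarefree hsq]
      refine Finset.prod_primes_dvd _ (fun l hl => (Nat.prime_of_mem_primeFactors hl).prime)
        (fun l hl => hcon l (Nat.prime_of_mem_primeFactors hl) ?_)
      rw [Int.natCast_dvd]
      exact Nat.dvd_of_mem_primeFactors hl
    have hoddE : Odd E.natAbs := by
      rw [← Nat.not_even_iff_odd, even_iff_two_dvd]
      intro h
      have := hodd 2 Nat.prime_two (Int.natCast_dvd.2 h)
      exact absurd this (by decide)
    have h3 := le_totient_sq _ hoddE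
    have h4 : Nat.totient E.natAbs ≤ Nat.totient D :=
      Nat.le_of_dvd (Nat.totient_pos.2 (by omega)) (Nat.totient_dvd_of_dvd hdvd)
    have h5 := sq_le_three_pow (Nat.totient D)
    have h6 := Nat.pow_le_pow_left h4 2
    omega
  obtain ⟨l, hl, hlE, hlD⟩ := hex
  have := Fact.mk hl
  have : NeZero (D : ZMod l) := ⟨by rwa [ne_eq, ZMod.natCast_eq_zero_iff]⟩
  have hprim : IsPrimitiveRoot (4 : ZMod l) D := by
    rw [← isRoot_cyclotomic_iff, IsRoot.def, ← map_cyclotomic_int]
    have h3 : ((E : ℤ) : ZMod l) = 0 := (ZMod.intCast_zmod_eq_zero_iff_dvd _ _).2 hlE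
    have h4 : (4 : ZMod l) = (Int.castRingHom (ZMod l)) 4 := by simp
    rw [h4, eval_map, eval₂_hom]
    exact h3
  refine ⟨l, hl, ?_, ?_, hprim⟩
  · have h3 : (l : ℤ) ≤ 4 ^ D - 1 := Int.le_of_dvd hpos (hlE.trans h1)
    have h4 : (l : ℤ) ≤ ((4 ^ D : ℕ) : ℤ) := by push_cast; linarith
    exact_mod_cast h4
  · have h3 : (4 : ZMod l) ≠ 0 := hprim.ne_zero (by omega)
    have h4 := hprim.dvd_of_pow_eq_one _ (ZMod.pow_card_sub_one_eq_one h3)
    have h5 := hl.two_le
    have h6 := Nat.le_of_dvd (by omega) h4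
    omega

end Pool.Agent.Lib.MP_9ae5d9_al.X
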