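import Mathlib

/-!
Helly property for arithmetic progressions, and selection of few Fourier coefficients.
-/

set_option autoImplicit false

namespace Pool.Agent.Lib.MP_9ae5d9_al.X

/-- closure under integral affine combinations of two points -/
def Aff (A : Set ℤ) : Prop := ∀ x ∈ A, ∀ y ∈ A, ∀ m : ℤ, x + m * (y - x) ∈ A

theorem Aff.inter {A B : Set ℤ} (hA : Aff A) (hB : Aff B) : Aff (A ∩ B) :=
  fun x hx y hy m => ⟨hA x hx.1 y hy.1 m, hB x hx.2 y hy.2 m⟩

theorem helly_three {A B C : Set ℤ} (hA : Aff A) (hB : Aff B) (hC : Aff C)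
    (hAB : (A ∩ B).Nonempty) (hAC : (A ∩ C).Nonempty) (hBC : (B ∩ C).Nonempty) :
    (A ∩ B ∩ C).Nonempty := by
  obtain ⟨p, hpA, hpB⟩ := hAB
  obtain ⟨q, hqA, hqC⟩ := hAC
  obtain ⟨r, hrB, hrC⟩ := hBC
  obtain ⟨a, b, ha, hb, hu⟩ := extract_gcd (q - p) (r - p)
  obtain ⟨u, v, huv⟩ := (gcd_isUnit_iff a b).1 hu
  generalize gcd (q - p) (r - p) = g at ha hb
  have e1 : p + (u + v) * b * (q - p) = p + (u + v) * a * (r - p) := by
    rw [ha, hb]; ring
  have e2 : p + (u + v) * b * (q - p) = q + a * u * (r - q) := by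
    have h1 : q = p + g * a := by linarith
    have h2 : r = p + g * b := by linarith
    rw [h1, h2]
    linear_combination (g * a) * huv
  refine ⟨p + (u + v) * b * (q - p), ⟨hA p hpA q hqA _, ?_⟩, ?_⟩
  · rw [e1]; exact hB p hpB r hrB _
  · rw [e2]; exact hC q hqC r hrC _

theorem helly_finset {ι : Type} (A : ι → Set ℤ) (hA : ∀ i, Aff (A i))
    (hp : ∀ i j, (A i ∩ A j).Nonempty) (s : Finset ι) :
    ∀ B : Set ℤ, Aff B → B.Nonempty → (∀ i, (B ∩ A i).Nonempty) → ∃ x ∈ B, ∀ i ∈ s, x ∈ A i := by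
  classical
  induction s using Finset.induction_on with
  | empty =>
    intro B _ hB _
    obtain ⟨x, hx⟩ := hB
    exact ⟨x, hx, by simp⟩
  | insert a s ha ih =>
    intro B hB _ hBA
    obtain ⟨x, hx, hxs⟩ := ih (B ∩ A a) (hB.inter (hA a)) (hBA a)
      (fun i => helly_three hB (hA a) (hA i) (hBA a) (hBA i) (hp a i))
    refine ⟨x, hx.1, fun i hi => ?_⟩
    rcases Finset.mem_insert.1 hi with rfl | hi
    · exact hx.2
    · exact hxs i hi

theorem helly {ι : Type} [Fintype ι] (A : ι → Set ℤ) (hA : ∀ i, Aff (A i))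
    (hp : ∀ i j, (A i ∩ A j).Nonempty) : ∃ x, ∀ i, x ∈ A i := by
  obtain ⟨x, -, hx⟩ := helly_finset A hA hp Finset.univ Set.univ (fun _ _ _ _ _ => trivial)
    ⟨0, trivial⟩ (fun i => by simpa using hp i i)
  exact ⟨x, fun i => hx i (Finset.mem_univ i)⟩

variable {K : Type} [Field K] {d : ℕ} [NeZero d]

/-- Fourier coefficient -/
noncomputable def four (ψ : AddChar (ZMod d) Kˣ) (u : ZMod d → K) (j : ZMod d) : K :=
  ∑ i, (ψ (j * i) : K) * u i

theorem four_shift (ψ : AddChar (ZMod d) Kˣ) (u : ZMod d → K) (a : K) (e j : ZMod d) :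
    four ψ (fun i => a * u (i - e)) j = a * ψ (j * e) * four ψ u j := by
  unfold four
  rw [Finset.mul_sum, ← Equiv.sum_comp (Equiv.addRight e)]
  refine Finset.sum_congr rfl fun i _ => ?_
  simp only [Equiv.coe_addRight, add_sub_cancel_right, mul_add, AddChar.map_add_eq_mul,
    Units.val_mul]
  ring

/-- the character `j ↦ ψ (j i)` -/
def fourHom (ψ : AddChar (ZMod d) Kˣ) (i : ZMod d) : Multiplicative (ZMod d) →* K where
  toFun j := (ψ (j.toAdd * i) : K)
  map_one' := by simp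
  map_mul' a b := by simp [add_mul, AddChar.map_add_eq_mul]

theorem four_inj (ψ : AddChar (ZMod d) Kˣ) (hψ : Function.Injective ψ) (u v : ZMod d → K)
    (h : ∀ j, four ψ u j = four ψ v j) : u = v := by
  have hinj : Function.Injective (fourHom ψ) := by
    intro a b hab
    have h1 := DFunLike.congr_fun hab (Multiplicative.ofAdd 1)
    have h2 : (ψ (1 * a) : K) = ψ (1 * b) := h1
    rw [one_mul, one_mul] at h2
    exact hψ (Units.ext h2)
  have hli := (linearIndependent_monoidHom (Multiplicative (ZMod d)) K).comp _ hinj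
  have := Fintype.linearIndependent_iff.1 hli (fun i => u i - v i) (by
    funext j
    have h1 := sub_eq_zero.2 (h j.toAdd)
    unfold four at h1
    rw [← Finset.sum_sub_distrib] at h1
    rw [Finset.sum_apply]
    refine Eq.trans (Finset.sum_congr rfl fun i _ => ?_) h1
    show (u i - v i) * (ψ (j.toAdd * i) : K) = _
    ring)
  funext i
  exact sub_eq_zero.1 (this i)

theorem exists_select {W H : Type} [Fintype W] [AddCommGroup H] (ψ : AddChar (ZMod d) Kˣ)
    (hψ : Function.Injective ψ) (α : W → AddChar H Kˣ) (u v : W → ZMod d → K)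
    (hne : ∀ (e : ZMod d) (c : H), ¬ ∀ w i, u w i = α w c * v w (i - e)) :
    ∃ T : W ⊕ Fin 2 → W × ZMod d, ∀ (e : ZMod d) (c : H),
      ¬ ∀ t, four ψ (u (T t).1) (T t).2 =
        α (T t).1 c * ψ ((T t).2 * e) * four ψ (v (T t).1) (T t).2 := by
  classical
  let P : W × ZMod d → ZMod d → H → Prop := fun t e c =>
    four ψ (u t.1) t.2 = α t.1 c * ψ (t.2 * e) * four ψ (v t.1) t.2
  have hP : ∀ t (x y m : ℤ) (c c' : H), P t x c → P t y c' →
      P t ((x + m * (y - x) : ℤ) : ZMod d) (c + m • (c' - c)) := by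
    intro t x y m c c' h1 h2
    by_cases h0 : four ψ (v t.1) t.2 = 0
    · simp only [P, h0, mul_zero] at h1 ⊢
      exact h1
    · have h3 : α t.1 c * ψ (t.2 * x) = α t.1 c' * ψ (t.2 * y) := by
        apply Units.ext
        apply mul_right_cancel₀ h0
        exact h1.symm.trans h2
      have h4 : α t.1 (c' - c) * ψ (t.2 * ((y : ZMod d) - x)) = 1 := by
        rw [mul_sub, AddChar.map_sub_eq_div, AddChar.map_sub_eq_div, div_mul_div_comm, h3,
          div_self']
      have h5 : α t.1 (c + m • (c' - c)) * ψ (t.2 * ((x + m * (y - x) : ℤ) : ZMod d)) =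
          α t.1 c * ψ (t.2 * x) := by
        have e1 : t.2 * ((x + m * (y - x) : ℤ) : ZMod d) =
            t.2 * x + m • (t.2 * ((y : ZMod d) - x)) := by
          push_cast
          rw [zsmul_eq_mul]
          ring
        rw [e1, AddChar.map_add_eq_mul, AddChar.map_add_eq_mul, AddChar.map_zsmul_eq_zpow,
          AddChar.map_zsmul_eq_zpow, mul_mul_mul_comm, ← mul_zpow, h4, one_zpow, mul_one]
      have h6 := congrArg (fun z : Kˣ => (z : K)) h5
      simp only [Units.val_mul] at h6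
      simp only [P] at h1 ⊢
      rw [h6]
      exact h1
  have hj : ∀ w, ∃ j, four ψ (v w) j = 0 → ∀ j', four ψ (v w) j' = 0 := by
    intro w
    by_cases h : ∃ j, four ψ (v w) j ≠ 0
    · obtain ⟨j, hj⟩ := h
      exact ⟨j, fun h => absurd h hj⟩
    · push Not at h
      exact ⟨0, fun _ => h⟩
  choose j₀ hj₀ using hj
  let A : W × ZMod d → Set ℤ := fun t => {x | ∃ c, (∀ w, P (w, j₀ w) x c) ∧ P t x c}
  have hA : ∀ t, Aff (A t) := by
    rintro t x ⟨c, hc1, hc2⟩ y ⟨c', hc1', hc2'⟩ m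
    exact ⟨c + m • (c' - c), fun w => hP _ x y m c c' (hc1 w) (hc1' w), hP _ x y m c c' hc2 hc2'⟩
  by_contra hcon
  push Not at hcon
  have hp : ∀ t t', (A t ∩ A t').Nonempty := by
    intro t t'
    obtain ⟨e, c, h⟩ := hcon (Sum.elim (fun w => (w, j₀ w)) ![t, t'])
    obtain ⟨x, rfl⟩ := ZMod.intCast_surjective e
    exact ⟨x, ⟨c, fun w => h (Sum.inl w), h (Sum.inr 0)⟩, ⟨c, fun w => h (Sum.inl w), h (Sum.inr 1)⟩⟩
  obtain ⟨x, hx⟩ := helly A hA hp
  rcases isEmpty_or_nonempty W with hW | ⟨⟨w₀⟩⟩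
  · exact hne 0 0 (fun w => hW.elim w)
  obtain ⟨c, hc, -⟩ := hx (w₀, 0)
  refine hne x c fun w => congrFun (four_inj ψ hψ _ _ fun j => ?_)
  rw [four_shift]
  obtain ⟨c', h1, h2⟩ := hx (w, j)
  by_cases h0 : four ψ (v w) (j₀ w) = 0
  · simp only [P, hj₀ w h0 j, mul_zero] at h2 ⊢
    exact h2
  · have h3 : (α w c : K) = α w c' := by
      have h4 := (hc w).symm.trans (h1 w)
      exact mul_right_cancel₀ (Units.ne_zero _) (mul_right_cancel₀ h0 h4)
    rw [h3]
    exact h2

end Pool.Agent.Lib.MP_9ae5d9_al.X
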