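import Mathlib
import Pool.Agent.Lib.MP_9ae5d9_al.Large
import Pool.Agent.Lib.MP_9ae5d9_al.X.Prime
import Pool.Agent.Lib.MP_9ae5d9_al.X.Select

/-!
The bound `Conj(n) ≤ 2 ^ (E n)` for `ℤ ≀ ℤ^k`.
-/

set_option autoImplicit false

namespace Pool.Agent.Lib.MP_9ae5d9_al.X

open AddMonoidAlgebra

variable {R : Type} [AddCommGroup R] {k : ℕ} {K : Type} [Field K]

/-- the diagonal action of a torus -/
def diag (K : Type) [Field K] (T : Type) : (T → Kˣ) →* MulAut (Multiplicative (T → K)) where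
  toFun h := AddEquiv.toMultiplicative
    { toFun := fun m t => (h t : K) * m t
      invFun := fun m t => ((h t)⁻¹ : Kˣ) * m t
      left_inv := by intro m; funext t; simp
      right_inv := by intro m; funext t; simp
      map_add' := by intro m m'; funext t; simp [mul_add] }
  map_one' := by
    ext m t
    show ((1 : Kˣ) : K) * m.toAdd t = m.toAdd t
    simp
  map_mul' a b := by
    ext m t
    show ((a t * b t : Kˣ) : K) * m.toAdd t = (a t : K) * ((b t : K) * m.toAdd t)
    rw [Units.val_mul, mul_assoc]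

theorem depth_le_of_chars [Fintype K] {T : Type} [Fintype T]
    (F : ((Fin k → ℤ) →₀ R) →+ (T → K)) (η : Multiplicative (Fin k → ℤ) →* (T → Kˣ))
    (hF : ∀ c f t, F (sh c f) t = η (Multiplicative.ofAdd c) t * F f t) (g h : Wreath R k)
    (hb : η (Multiplicative.ofAdd (pos g)) = 1)
    (hne : ∀ c, ¬ ∀ t, F (lamp h) t = η (Multiplicative.ofAdd c) t * F (lamp g) t) :
    depth g h ≤ ((Fintype.card K ^ (2 * Fintype.card T) : ℕ) : ℕ∞) := by
  classical
  let π : Wreath R k →* SemidirectProduct (Multiplicative (T → K)) (T → Kˣ) (diag K T) :=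
    SemidirectProduct.map (AddMonoidHom.toMultiplicative F) η (by
      intro c
      refine MonoidHom.ext fun f => ?_
      funext t
      show F (shift R k c f).toAdd t = η c t * F f.toAdd t
      rw [shift_toAdd, hF]
      rfl)
  have hfin : Finite (SemidirectProduct (Multiplicative (T → K)) (T → Kˣ) (diag K T)) :=
    Finite.of_equiv _ SemidirectProduct.equivProd.symm
  refine (depth_le π g h ?_).trans ?_
  · intro γ hγ
    have h1 : F (lamp (γ * g * γ⁻¹)) = F (lamp h) := congrArg (fun q => q.left.toAdd) hγ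
    refine hne (pos γ) fun t => ?_
    rw [← h1, lamp_conj, map_sub, map_add]
    simp only [Pi.sub_apply, Pi.add_apply, hF, hb, Pi.one_apply, Units.val_one, one_mul]
    ring
  · rw [SemidirectProduct.card]
    norm_cast
    have e1 : Nat.card (Multiplicative (T → K)) = Fintype.card K ^ Fintype.card T := by
      rw [Nat.card_eq_fintype_card]
      simp
    have e2 : Nat.card (T → Kˣ) = (Fintype.card K - 1) ^ Fintype.card T := by
      rw [Nat.card_eq_fintype_card]
      simp [Fintype.card_units]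
    rw [e1, e2, two_mul, pow_add]
    exact Nat.mul_le_mul_left _ (Nat.pow_le_pow_left (Nat.sub_le _ _) _)

/-- `chi y` as an additive character -/
def chiA (y : Fin k → Kˣ) : AddChar (Fin k → ℤ) Kˣ where
  toFun := chi y
  map_zero_eq_one' := chi_zero y
  map_add_eq_mul' := chi_add y

theorem depth_le_of_root [Fintype K] (ι : R →+ K) (g h : Wreath R k) (r d : ℕ) [NeZero d]
    (ρ : (Fin k → ℤ) →+ (Fin k → ℤ)) (l : (Fin k → ℤ) →+ ZMod d) (hdr : d ≤ r)
    (hρb : ρ (pos g) = 0) (hlb : l (pos g) = 0)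
    (hker : ∀ x, ρ x = 0 → l x = 0 → x ∈ AddSubgroup.zmultiples (pos g))
    (hρ : ∀ x : Fin k → ℤ, (∀ i, (x i).natAbs ≤ r) → ∀ i, (ρ x i).natAbs ≤ 2 * r ^ 2)
    (ψ : AddChar (ZMod d) Kˣ) (hψ : Function.Injective ψ)
    (hpos : pos h = pos g)
    (hg : ∀ x ∈ (lamp g).support, ∀ i, (x i).natAbs ≤ r)
    (hh : ∀ x ∈ (lamp h).support, ∀ i, (x i).natAbs ≤ r)
    (hι : ∀ (B : Type) (Φ : (Fin k → ℤ) → B) (p q : B),
      ι (Finsupp.mapDomain Φ (lamp h) p) = ι (Finsupp.mapDomain Φ (lamp g) q) →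
      Finsupp.mapDomain Φ (lamp h) p = Finsupp.mapDomain Φ (lamp g) q)
    (hK : 8 * r ^ 3 + 1 < Fintype.card K) (hnc : ¬ IsConj g h) :
    depth g h ≤ ((Fintype.card K ^ 10 : ℕ) : ℕ∞) := by
  classical
  have hne : ∀ (j : ZMod d) (c : Fin k → ℤ), ∃ i,
      sl ι ρ l i (lamp h) ≠ single c 1 * sl ι ρ l (i - j) (lamp g) := by
    intro j c
    by_contra hcon
    push Not at hcon
    apply hnc
    refine isConj_of_translate (ρ.prod l) g h hpos ?_ (c, j) ?_
    · intro x hx
      exact hker x (congrArg Prod.fst hx) (congrArg Prod.snd hx)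
    · rintro ⟨a, i⟩
      apply hι
      have := congrArg (fun v => v.coeff a) (hcon i)
      simp only [coeff_single_mul_apply, coeff_sl, one_mul] at this
      rw [this, Prod.mk_sub_mk, neg_add_eq_sub]
  obtain ⟨y, z, hyz⟩ := exists_separating (K := K) (D := 2 * r ^ 2)
    (fun i => sl ι ρ l i (lamp h)) (fun j i => sl ι ρ l (i - j) (lamp g))
    (fun i => box_sl ι ρ l i _ _ fun x hx => hρ x (hh x hx))
    (fun j i => box_sl ι ρ l _ _ _ fun x hx => hρ x (hg x hx)) hne (by
      rw [ZMod.card]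
      have : d * (2 * r ^ 2 + 2 * r ^ 2) ≤ r * (2 * r ^ 2 + 2 * r ^ 2) := Nat.mul_le_mul_right _ hdr
      nlinarith)
  set Y : Fin 3 → Fin k → Kˣ := ![y, z, y * z] with hY
  obtain ⟨T, hT⟩ := exists_select ψ hψ (fun w => chiA (Y w)) (evM ι ρ l Y (lamp h))
    (evM ι ρ l Y (lamp g)) (fun e c hc => hyz e ⟨c, fun i => ⟨hc 0 i, hc 1 i, hc 2 i⟩⟩)
  let F : ((Fin k → ℤ) →₀ R) →+ (Fin 3 ⊕ Fin 2 → K) :=
    { toFun := fun f t => four ψ (evM ι ρ l Y f (T t).1) (T t).2
      map_zero' := by funext t; simp [four]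
      map_add' := by intro f f'; funext t; simp [four, mul_add, Finset.sum_add_distrib] }
  let η : Multiplicative (Fin k → ℤ) →* (Fin 3 ⊕ Fin 2 → Kˣ) :=
    { toFun := fun c t => chi (Y (T t).1) (ρ c.toAdd) * ψ ((T t).2 * l c.toAdd)
      map_one' := by funext t; simp [chi_zero]
      map_mul' := by
        intro a b
        funext t
        simp only [toAdd_mul, map_add, chi_add, mul_add, AddChar.map_add_eq_mul, Pi.mul_apply]
        exact mul_mul_mul_comm _ _ _ _ }
  have hF : ∀ c f t, F (sh c f) t = η (Multiplicative.ofAdd c) t * F f t := by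
    intro c f t
    show four ψ (evM ι ρ l Y (sh c f) (T t).1) (T t).2 =
      ((chi (Y (T t).1) (ρ c) * ψ ((T t).2 * l c) : Kˣ) : K) *
        four ψ (evM ι ρ l Y f (T t).1) (T t).2
    rw [Units.val_mul, ← four_shift]
    congr 1
    funext i
    exact evM_sh ι ρ l Y c f _ i
  have := depth_le_of_chars F η hF g h (by
    funext t
    show chi (Y (T t).1) (ρ (pos g)) * ψ ((T t).2 * l (pos g)) = 1
    rw [hρb, hlb, chi_zero, mul_zero, AddChar.map_zero_eq_one, one_mul]) (by
    intro c hc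
    refine hT (l c) (ρ c) fun t => ?_
    have h1 := hc t
    rw [← Units.val_mul]
    exact h1)
  simpa using this

theorem exists_field (r d : ℕ) [NeZero d] (hdr : d ≤ r) :
    ∃ (K : Type) (_ : Field K) (_ : Fintype K) (ψ : AddChar (ZMod d) Kˣ),
      Function.Injective ψ ∧ 8 * r ^ 3 + 1 < Fintype.card K ∧ Fintype.card K ≤ 2 ^ (18 * r) ∧
      ∀ a b : ℤ, a.natAbs ≤ r → b.natAbs ≤ r → (a : K) = b → a = b := by
  have hd : 0 < d := NeZero.pos d
  set q := 2 * r / d + 1 with hq
  have h1 : 2 * r < d * q := Nat.lt_mul_div_succ _ hd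
  have h2 : d * q ≤ 3 * r := by
    have := Nat.mul_div_le (2 * r) d
    rw [hq, mul_add, mul_one]
    omega
  obtain ⟨l, hl, hl1, hl2, hprim⟩ := exists_prime_root (d * q) (by omega)
  have := Fact.mk hl
  let _ : Fintype (GaloisField l 3) := Fintype.ofFinite _
  have hc : Fintype.card (GaloisField l 3) = l ^ 3 := by
    rw [← Nat.card_eq_fintype_card, GaloisField.card l _ (by norm_num)]
  have hp1 : IsPrimitiveRoot ((4 : ZMod l) ^ q) d := hprim.pow (by omega) (mul_comm _ _)
  have hp2 := hp1.map_of_injective (algebraMap (ZMod l) (GaloisField l 3)).injective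
  have hp3 := hp2.isUnit_unit' (NeZero.ne d)
  refine ⟨GaloisField l 3, inferInstance, inferInstance,
    AddChar.zmodChar d hp3.pow_eq_one, ?_, ?_, ?_, ?_⟩
  · intro a b hab
    rw [AddChar.zmodChar_apply, AddChar.zmodChar_apply] at hab
    exact ZMod.val_injective d (hp3.pow_inj (ZMod.val_lt a) (ZMod.val_lt b) hab)
  · rw [hc]
    have h3 : (2 * r + 2) ^ 3 ≤ l ^ 3 := Nat.pow_le_pow_left (by omega) 3
    have h4 : (2 * r + 2) ^ 3 = 8 * r ^ 3 + 24 * r ^ 2 + 24 * r + 8 := by ring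
    omega
  · rw [hc]
    calc l ^ 3 ≤ (4 ^ (3 * r)) ^ 3 :=
          Nat.pow_le_pow_left (hl1.trans (Nat.pow_le_pow_right (by norm_num) h2)) 3
      _ = 2 ^ (18 * r) := by
          rw [show (4 : ℕ) = 2 ^ 2 by norm_num, ← pow_mul, ← pow_mul]
          congr 1
          ring
  · intro a b ha hb hab
    have h3 := (CharP.intCast_eq_intCast (GaloisField l 3) l).1 hab
    have h4 := Int.eq_zero_of_dvd_of_natAbs_lt_natAbs h3.dvd (by
      rw [Int.natAbs_natCast]
      omega)
    omega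

theorem conjDepth_le_two_pow (S : Finset (Wreath ℤ k)) :
    ∃ E : ℕ, ∀ n, conjDepth S n ≤ ((2 ^ (E * n) : ℕ) : ℕ∞) := by
  obtain ⟨C, hC1, hC⟩ := exists_small_ball (ν := Int.natAbs) rfl Int.natAbs_add_le S
  refine ⟨180 * C, fun n => ?_⟩
  apply sSup_le
  rintro _ ⟨g, h, hg, hh, hnc, rfl⟩
  have sg := hC n g hg
  have sh' := hC n h hh
  have hn : 1 ≤ n := by
    rcases Nat.eq_zero_or_pos n with rfl | hn
    · obtain ⟨l, hl, -, rfl⟩ := hg
      obtain ⟨l', hl', -, rfl⟩ := hh
      rw [List.length_eq_zero_iff.1 (Nat.le_zero.1 hl),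
        List.length_eq_zero_iff.1 (Nat.le_zero.1 hl')] at hnc
      exact absurd (IsConj.refl _) hnc
    · exact hn
  rw [mul_assoc]
  generalize hr : C * n = r at *
  have hr1 : 1 ≤ r := by rw [← hr]; exact Nat.mul_pos hC1 hn
  by_cases hpos : pos h = pos g
  · obtain ⟨d, ρ, l, hd1, hdr, hρb, hlb, hker, hρ⟩ := exists_coords (pos g) r hr1 sg.pos_le
    have : NeZero d := ⟨by omega⟩
    obtain ⟨K, _, _, ψ, hψ, hK1, hK2, hK3⟩ := exists_field r d hdr
    refine (depth_le_of_root (Int.castAddHom K) g h r d ρ l hdr hρb hlb hker hρ ψ hψ hpos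
      sg.supp_le sh'.supp_le ?_ hK1 hnc).trans ?_
    · intro B Φ p q hpq
      exact hK3 _ _ (sh'.mass_le B Φ p) (sg.mass_le B Φ q) hpq
    · norm_cast
      calc Fintype.card K ^ 10 ≤ (2 ^ (18 * r)) ^ 10 := Nat.pow_le_pow_left hK2 _
        _ = 2 ^ (180 * r) := by
          rw [← pow_mul]
          congr 1
          ring
  · refine (depth_le_of_pos_ne g h r hpos sg.pos_le sh'.pos_le).trans ?_
    norm_cast
    have : 180 * r < 2 ^ (180 * r) := Nat.lt_two_pow_self
    omega

end Pool.Agent.Lib.MP_9ae5d9_al.X
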