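import Mathlib

/-!
Linear algebra over `ZMod p`: a unipotent operator together with an operator of large order
force a large dimension.
-/

set_option autoImplicit false

namespace Pool.Agent.Lib.MP_9ae5d9_al.X

open Module Polynomial

theorem mul_finrank_range_le {F V : Type} [Field F] [AddCommGroup V] [Module F V]
    [FiniteDimensional F V] (t : Module.End F V) (e : ℕ) (ht : t ^ (e + 1) = 0) :
    (e + 1) * finrank F (LinearMap.range (t ^ e)) ≤ finrank F V := by
  have key : ∀ i j, j + i = e + 1 →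
      i * finrank F (LinearMap.range (t ^ e)) ≤ finrank F (LinearMap.range (t ^ j)) := by
    intro i
    induction i with
    | zero => intro j _; simp
    | succ i ih =>
      intro j hj
      have h1 := ih (j + 1) (by omega)
      have h2 := LinearMap.finrank_range_add_finrank_ker (t.domRestrict (LinearMap.range (t ^ j)))
      have h3 : LinearMap.range (t.domRestrict (LinearMap.range (t ^ j))) =
          LinearMap.range (t ^ (j + 1)) := by
        rw [LinearMap.range_domRestrict, pow_succ', Module.End.mul_eq_comp, LinearMap.range_comp]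
      have h4 : LinearMap.range (t ^ e) ≤ LinearMap.range (t ^ j) := by
        obtain ⟨s, rfl⟩ : ∃ s, e = j + s := ⟨e - j, by omega⟩
        rw [pow_add, Module.End.mul_eq_comp]
        exact LinearMap.range_comp_le_range _ _
      have h5 : (LinearMap.range (t ^ e)).comap (LinearMap.range (t ^ j)).subtype ≤
          LinearMap.ker (t.domRestrict (LinearMap.range (t ^ j))) := by
        rintro ⟨x, hx⟩ ⟨y, hy⟩
        have hy' : (t ^ e) y = x := hy
        show t x = 0
        rw [← hy', ← Module.End.mul_apply, ← pow_succ', ht, LinearMap.zero_apply]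
      have h6 := Submodule.finrank_mono h5
      rw [(Submodule.comapSubtypeEquivOfLe h4).finrank_eq] at h6
      rw [h3] at h2
      rw [add_mul, one_mul]
      omega
  exact (key (e + 1) 0 (by omega)).trans (Submodule.finrank_le _)

/-- the order of `GL_n(𝔽_p)` -/
def glOrder (p n : ℕ) : ℕ := ∏ i : Fin n, (p ^ n - p ^ (i : ℕ))

theorem glOrder_dvd_succ (p n : ℕ) : glOrder p n ∣ glOrder p (n + 1) := by
  unfold glOrder
  rw [Fin.prod_univ_succ]
  refine Dvd.dvd.mul_left (Finset.prod_dvd_prod_of_dvd _ _ fun i _ => ?_) _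
  rw [Fin.val_succ, pow_succ, pow_succ, ← Nat.sub_mul]
  exact dvd_mul_right _ _

theorem glOrder_dvd (p : ℕ) {n m : ℕ} (h : n ≤ m) : glOrder p n ∣ glOrder p m := by
  induction h with
  | refl => exact dvd_rfl
  | step _ ih => exact ih.trans (glOrder_dvd_succ p _)

theorem glOrder_le (p n : ℕ) : glOrder p n ≤ p ^ (n * n) := by
  unfold glOrder
  refine (Finset.prod_le_pow_card _ _ (p ^ n) fun i _ => Nat.sub_le _ _).trans ?_
  rw [Finset.card_univ, Fintype.card_fin, pow_mul]

theorem glOrder_pos {p : ℕ} (hp : 1 < p) (n : ℕ) : 0 < glOrder p n :=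
  Finset.prod_pos fun i _ => Nat.sub_pos_of_lt (Nat.pow_lt_pow_right hp i.2)

variable {p : ℕ} [Fact p.Prime]

theorem pow_glOrder {V : Type} [AddCommGroup V] [Module (ZMod p) V]
    [FiniteDimensional (ZMod p) V] (f : Module.End (ZMod p) V) (hf : Function.Injective f)
    (m : ℕ) (hm : finrank (ZMod p) V ≤ m) : f ^ glOrder p m = 1 := by
  obtain ⟨u, rfl⟩ : IsUnit f := (LinearMap.isUnit_iff_ker_eq_bot f).2 (LinearMap.ker_eq_bot.2 hf)
  have h1 : Nat.card (Module.End (ZMod p) V)ˣ = glOrder p (finrank (ZMod p) V) := by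
    have e := Matrix.GeneralLinearGroup.toLin' (Module.finBasis (ZMod p) V)
    have h2 := Matrix.card_GL_field (𝔽 := ZMod p) (finrank (ZMod p) V)
    rw [ZMod.card] at h2
    exact (Nat.card_congr e.toEquiv).symm.trans h2
  obtain ⟨s, hs⟩ := glOrder_dvd p hm
  have h3 : u ^ glOrder p m = 1 := by
    rw [hs, pow_mul, ← h1, pow_card_eq_one', one_pow]
  rw [← Units.val_pow_eq_pow_val, h3, Units.val_one]

theorem geom_eq_pow (a e : ℕ) (he : e + 1 = p ^ a) :
    (∑ i ∈ Finset.range (p ^ a), (X : (ZMod p)[X]) ^ i) = (X - 1) ^ e := by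
  have h1 : (X - 1 : (ZMod p)[X]) ≠ 0 := X_sub_C_ne_zero 1
  apply mul_right_cancel₀ h1
  rw [geom_sum_mul, ← pow_succ, he, sub_pow_char_pow, one_pow]

theorem finrank_ge {W : Type} [AddCommGroup W] [Module (ZMod p) W]
    [FiniteDimensional (ZMod p) W] (x y : Module.End (ZMod p) W) (hxy : Commute x y)
    (hy : Function.Injective y) (a m : ℕ) (hx : x ^ p ^ a = 1) (δ : W)
    (hδ : (y ^ glOrder p m) ((∑ i ∈ Finset.range (p ^ a), x ^ i) δ) ≠
      (∑ i ∈ Finset.range (p ^ a), x ^ i) δ) :
    p ^ a * (m + 1) ≤ finrank (ZMod p) W := by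
  obtain ⟨e, he⟩ : ∃ e, e + 1 = p ^ a :=
    ⟨p ^ a - 1, Nat.sub_add_cancel (Nat.one_le_pow _ _ (Fact.out : p.Prime).pos)⟩
  have h1 : (∑ i ∈ Finset.range (p ^ a), x ^ i) = (x - 1) ^ e := by
    have := congrArg (aeval x) (geom_eq_pow a e he)
    simpa using this
  have h2 : (x - 1) ^ (e + 1) = 0 := by
    rw [pow_succ, ← h1, geom_sum_mul, hx, sub_self]
  have h3 := mul_finrank_range_le (x - 1) e h2
  have h4 : Commute y ((x - 1) ^ e) := (hxy.symm.sub_right (Commute.one_right y)).pow_right e
  have h5 : ∀ w ∈ LinearMap.range ((x - 1) ^ e), y w ∈ LinearMap.range ((x - 1) ^ e) := by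
    rintro _ ⟨v, rfl⟩
    exact ⟨y v, by rw [← Module.End.mul_apply, ← h4.eq, Module.End.mul_apply]⟩
  have h6 : m + 1 ≤ finrank (ZMod p) (LinearMap.range ((x - 1) ^ e)) := by
    by_contra hcon
    have h7 := pow_glOrder (y.restrict h5) (fun v w hvw => Subtype.ext (hy (congrArg Subtype.val hvw)))
      m (by omega)
    apply hδ
    rw [h1]
    have h8 := congrArg Subtype.val (LinearMap.congr_fun h7 ⟨((x - 1) ^ e) δ, δ, rfl⟩)
    rw [Module.End.pow_restrict] at h8
    exact h8
  rw [← he]
  exact (Nat.mul_le_mul_left _ h6).trans h3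

end Pool.Agent.Lib.MP_9ae5d9_al.X
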