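import Mathlib
import Pool.Agent.Lib.MP_9ae5d9_al.Large
import Pool.Agent.Lib.MP_9ae5d9_al.X.Linear

/-!
The lower bound `2 ^ (p ^ a (m + 1)) ≤ Conj(C p ^ a)` for `m ^ 2 ≤ a` in `𝔽_p ≀ ℤ^k`, `k ≥ 2`.
-/

set_option autoImplicit false

namespace Pool.Agent.Lib.MP_9ae5d9_al.X

section ball

variable {G : Type} [Group G] {S : Finset G}

theorem ball_mono {n m : ℕ} {g : G} (h : InBall S n g) (hnm : n ≤ m) : InBall S m g := by
  obtain ⟨l, h1, h2, h3⟩ := h
  exact ⟨l, h1.trans hnm, h2, h3⟩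

theorem ball_one : InBall S 0 (1 : G) := ⟨[], le_rfl, by simp, rfl⟩

theorem ball_mul {n m : ℕ} {g h : G} (hg : InBall S n g) (hh : InBall S m h) :
    InBall S (n + m) (g * h) := by
  obtain ⟨l, h1, h2, rfl⟩ := hg
  obtain ⟨l', h1', h2', rfl⟩ := hh
  refine ⟨l ++ l', by rw [List.length_append]; omega, fun x hx => ?_, List.prod_append⟩
  rcases List.mem_append.1 hx with h | h
  · exact h2 x h
  · exact h2' x h

theorem ball_inv {n : ℕ} {g : G} (hg : InBall S n g) : InBall S n g⁻¹ := by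
  obtain ⟨l, h1, h2, rfl⟩ := hg
  refine ⟨(l.map fun x => x⁻¹).reverse, by simpa using h1, fun x hx => ?_,
    (List.prod_inv_reverse l).symm⟩
  obtain ⟨y, hy, rfl⟩ := List.mem_map.1 (List.mem_reverse.1 hx)
  rw [inv_inv]
  exact (h2 y hy).symm

theorem ball_pow {n : ℕ} {g : G} (hg : InBall S n g) (m : ℕ) : InBall S (n * m) (g ^ m) := by
  induction m with
  | zero => simpa using ball_one
  | succ m ih =>
    rw [pow_succ, mul_add, mul_one]
    exact ball_mul ih hg

theorem exists_ball (hS : Subgroup.closure (S : Set G) = ⊤) (g : G) : ∃ n, InBall S n g := by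
  have hg : g ∈ Subgroup.closure (S : Set G) := hS ▸ Subgroup.mem_top g
  induction hg using Subgroup.closure_induction with
  | mem x hx => exact ⟨1, [x], le_rfl, fun y hy => Or.inl (List.mem_singleton.1 hy ▸ hx), by simp⟩
  | one => exact ⟨0, ball_one⟩
  | mul x y _ _ hx hy =>
    obtain ⟨n, hn⟩ := hx
    obtain ⟨m, hm⟩ := hy
    exact ⟨n + m, ball_mul hn hm⟩
  | inv x _ hx =>
    obtain ⟨n, hn⟩ := hx
    exact ⟨n, ball_inv hn⟩

end ball

section elements

variable {R : Type} [AddCommGroup R] {k : ℕ}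

/-- the element with given lamp configuration and position -/
def el (f : (Fin k → ℤ) →₀ R) (c : Fin k → ℤ) : Wreath R k :=
  ⟨Multiplicative.ofAdd f, Multiplicative.ofAdd c⟩

theorem lamp_el (f : (Fin k → ℤ) →₀ R) (c : Fin k → ℤ) : lamp (el f c) = f := rfl
theorem pos_el (f : (Fin k → ℤ) →₀ R) (c : Fin k → ℤ) : pos (el f c) = c := rfl

theorem sh_zero (f : (Fin k → ℤ) →₀ R) : sh 0 f = f := by
  rw [sh_apply]
  simp only [add_zero]
  exact Finsupp.mapDomain_id

theorem el_mul (f f' : (Fin k → ℤ) →₀ R) (c c' : Fin k → ℤ) :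
    el f c * el f' c' = el (f + sh c f') (c + c') :=
  wreath_ext (lamp_mul _ _) (pos_mul _ _)

theorem el_inv (f : (Fin k → ℤ) →₀ R) (c : Fin k → ℤ) :
    (el f c)⁻¹ = el (- sh (-c) f) (-c) :=
  wreath_ext (lamp_inv _) (pos_inv _)

theorem el_pow (r : R) (c : Fin k → ℤ) (n : ℕ) :
    el (Finsupp.single 0 r) c ^ n =
      el (∑ i ∈ Finset.range n, Finsupp.single (i • c) r) (n • c) := by
  induction n with
  | zero => exact wreath_ext (by simp [lamp_one, lamp_el]) (by simp [pos_one, pos_el])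
  | succ n ih =>
    rw [pow_succ, ih, el_mul, sh_single, zero_add, Finset.sum_range_succ, succ_nsmul]

theorem el_zero_pow (c : Fin k → ℤ) (n : ℕ) :
    (el 0 c : Wreath R k) ^ n = el 0 (n • c) := by
  simpa using el_pow (0 : R) c n

end elements

variable {p : ℕ} [Fact p.Prime] {k : ℕ}

/-- the shift as a linear map -/
noncomputable def shL (p : ℕ) (c : Fin k → ℤ) : Module.End (ZMod p) ((Fin k → ℤ) →₀ ZMod p) :=
  Finsupp.lmapDomain (ZMod p) (ZMod p) (· + c)

theorem shL_apply (c : Fin k → ℤ) (f : (Fin k → ℤ) →₀ ZMod p) : shL p c f = sh c f := rfl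

theorem le_depth (a m : ℕ) (c₀ c₁ : Fin k → ℤ) :
    ((p ^ (p ^ a * (m + 1)) : ℕ) : ℕ∞) ≤
      depth (el 0 (p ^ a • c₀) : Wreath (ZMod p) k)
        (el (sh (glOrder p m • c₁) (∑ i ∈ Finset.range (p ^ a), Finsupp.single (i • c₀) 1) -
          ∑ i ∈ Finset.range (p ^ a), Finsupp.single (i • c₀) 1) (p ^ a • c₀)) := by
  classical
  set b := p ^ a • c₀ with hb
  set σ : (Fin k → ℤ) →₀ ZMod p := ∑ i ∈ Finset.range (p ^ a), Finsupp.single (i • c₀) 1 with hσ
  apply le_sInf
  rintro _ ⟨Q, _, _, π, -, hnc, rfl⟩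
  let N₀ : AddSubgroup ((Fin k → ℤ) →₀ ZMod p) :=
    { carrier := {f | π (el f 0) = 1}
      zero_mem' := π.map_one
      add_mem' := by
        intro f f' hf hf'
        have h1 : π (el f 0 * el f' 0) = 1 := by rw [map_mul, hf, hf', one_mul]
        rwa [el_mul, sh_zero, add_zero] at h1
      neg_mem' := by
        intro f hf
        have h1 : π (el f 0)⁻¹ = 1 := by rw [map_inv, hf, inv_one]
        rwa [el_inv, neg_zero, sh_zero] at h1 }
  let N : Submodule (ZMod p) ((Fin k → ℤ) →₀ ZMod p) := AddSubgroup.toZModSubmodule p N₀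
  have hN : ∀ f, f ∈ N ↔ π (el f 0) = 1 := fun f => Iff.rfl
  let U : Submodule (ZMod p) ((Fin k → ℤ) →₀ ZMod p) := N ⊔ LinearMap.range (1 - shL p b)
  have hU : ∀ c, U ≤ U.comap (shL p c) := by
    intro c
    refine sup_le (fun f hf => Submodule.mem_sup_left ?_) ?_
    · rw [hN] at hf
      have h1 : π (el 0 c * el f 0 * (el 0 c)⁻¹) = 1 := by
        rw [map_mul, map_mul, hf, mul_one, ← map_mul, mul_inv_cancel, map_one]
      rw [el_inv, el_mul, el_mul] at h1
      simpa [hN, shL_apply] using h1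
    · rintro _ ⟨φ, rfl⟩
      refine Submodule.mem_sup_right ⟨sh c φ, ?_⟩
      simp only [LinearMap.sub_apply, Module.End.one_apply, shL_apply, map_sub, sh_sh, add_comm]
  let X : Multiplicative (Fin k → ℤ) →* Module.End (ZMod p) (((Fin k → ℤ) →₀ ZMod p) ⧸ U) :=
    { toFun := fun c => U.mapQ U (shL p c.toAdd) (hU _)
      map_one' := by
        apply Submodule.linearMap_qext
        refine LinearMap.ext fun f => ?_
        show U.mkQ (sh 0 f) = U.mkQ f
        rw [sh_zero]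
      map_mul' := by
        intro c c'
        apply Submodule.linearMap_qext
        refine LinearMap.ext fun f => ?_
        show U.mkQ (sh (c.toAdd + c'.toAdd) f) = U.mkQ (sh c.toAdd (sh c'.toAdd f))
        rw [sh_sh, add_comm] }
  have hX : ∀ c f, X (Multiplicative.ofAdd c) (U.mkQ f) = U.mkQ (sh c f) := fun c f => rfl
  have hXp : ∀ (c : Fin k → ℤ) (n : ℕ),
      X (Multiplicative.ofAdd c) ^ n = X (Multiplicative.ofAdd (n • c)) := by
    intro c n
    rw [← map_pow, ofAdd_nsmul]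
  choose s hs using U.mkQ_surjective
  have hinj : Function.Injective fun w => π (el (s w) 0) := by
    intro w w' hw
    have h1 : π (el (s w) 0 * (el (s w') 0)⁻¹) = 1 := by
      rw [map_mul, map_inv]
      exact mul_inv_eq_one.2 hw
    rw [el_inv, el_mul, neg_zero, sh_zero, sh_zero, add_zero, ← sub_eq_add_neg] at h1
    rw [← hs w, ← hs w']
    exact (Submodule.Quotient.eq U).2 (Submodule.mem_sup_left ((hN _).2 h1))
  have hfin : Finite (((Fin k → ℤ) →₀ ZMod p) ⧸ U) := Finite.of_injective _ hinj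
  have hcard := Nat.card_le_card_of_injective _ hinj
  have hrank := finrank_ge (X (Multiplicative.ofAdd c₀)) (X (Multiplicative.ofAdd c₁))
    ((Commute.all _ _).map X) (by
      have h1 : X (Multiplicative.ofAdd c₁)⁻¹ * X (Multiplicative.ofAdd c₁) = 1 := by
        rw [← map_mul, inv_mul_cancel, map_one]
      exact Function.LeftInverse.injective (g := X (Multiplicative.ofAdd c₁)⁻¹)
        fun w => LinearMap.congr_fun h1 w) a m (by
      rw [hXp]
      apply Submodule.linearMap_qext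
      refine LinearMap.ext fun f => ?_
      show U.mkQ (sh b f) = U.mkQ f
      symm
      exact (Submodule.Quotient.eq U).2 (Submodule.mem_sup_right ⟨f, rfl⟩))
    (U.mkQ (Finsupp.single 0 1)) (by
      have h1 : (∑ i ∈ Finset.range (p ^ a), X (Multiplicative.ofAdd c₀) ^ i)
          (U.mkQ (Finsupp.single 0 1)) = U.mkQ σ := by
        rw [LinearMap.sum_apply, hσ, map_sum]
        refine Finset.sum_congr rfl fun i _ => ?_
        rw [hXp, hX, sh_single, zero_add]
      rw [h1, hXp, hX]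
      intro h2
      obtain ⟨n, hn, _, ⟨φ, rfl⟩, h3⟩ := Submodule.mem_sup.1 ((Submodule.Quotient.eq U).1 h2)
      apply hnc
      refine isConj_iff.2 ⟨π (el φ 0), ?_⟩
      have h4 : el (sh (glOrder p m • c₁) σ - σ) b = el n 0 * (el φ 0 * el 0 b * (el φ 0)⁻¹) := by
        rw [el_inv, el_mul, el_mul, el_mul, ← h3]
        simp [sh_zero, shL_apply, sub_eq_add_neg]
      rw [h4, map_mul, (hN n).1 hn, one_mul, map_mul, map_mul, map_inv])
  have h5 : Nat.card (((Fin k → ℤ) →₀ ZMod p) ⧸ U) =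
      p ^ Module.finrank (ZMod p) (((Fin k → ℤ) →₀ ZMod p) ⧸ U) := by
    rw [Module.natCard_eq_pow_finrank (K := ZMod p), Nat.card_zmod]
  norm_cast
  exact (Nat.pow_le_pow_right (Fact.out : p.Prime).pos hrank).trans (h5 ▸ hcard)

theorem not_isConj (d L : ℕ) (hd : 0 < d) (hL : 0 < L) (i₀ i₁ : Fin k) (hi : i₀ ≠ i₁) :
    ¬ IsConj (el 0 (d • Pi.single i₀ 1) : Wreath (ZMod p) k)
        (el (sh (L • Pi.single i₁ 1)
          (∑ i ∈ Finset.range d, Finsupp.single (i • Pi.single i₀ 1) 1) -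
          ∑ i ∈ Finset.range d, Finsupp.single (i • Pi.single i₀ 1) 1) (d • Pi.single i₀ 1)) := by
  classical
  intro hc
  obtain ⟨γ, hγ⟩ := isConj_iff.1 hc
  have h1 := congrArg lamp hγ
  rw [lamp_conj, lamp_el, lamp_el, pos_el, map_zero, add_zero] at h1
  let Φ : (Fin k → ℤ) → ZMod d × ℤ := fun x => ((x i₀ : ZMod d), x i₁)
  let T : ((Fin k → ℤ) →₀ ZMod p) →+ (ZMod d × ℤ →₀ ZMod p) := Finsupp.mapDomain.addMonoidHom Φ
  have hT : ∀ x r, T (Finsupp.single x r) = Finsupp.single (Φ x) r :=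
    fun x r => Finsupp.mapDomain_single
  have h2 : T (sh (d • Pi.single i₀ 1) (lamp γ)) = T (lamp γ) := by
    show Finsupp.mapDomain Φ (Finsupp.mapDomain _ _) = Finsupp.mapDomain Φ _
    rw [← Finsupp.mapDomain_comp]
    congr 1
    funext x
    simp [Φ, hi.symm]
  have h3 := congrArg (fun f => T f (0, 0)) h1
  simp only [map_sub, h2, sub_self, Finsupp.zero_apply, map_sum, sh_single, hT,
    Finsupp.sub_apply, Finsupp.finsetSum_apply] at h3
  rw [Finset.sum_eq_zero, Finset.sum_eq_single 0] at h3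
  · simp [Φ] at h3
  · intro i hi' hi0
    rw [Finsupp.single_apply, if_neg]
    intro h4
    have h5 := congrArg Prod.fst h4
    simp only [Φ, Pi.smul_apply, Pi.single_eq_same, nsmul_eq_mul, mul_one, Int.cast_natCast] at h5
    rw [ZMod.natCast_eq_zero_iff] at h5
    have := Nat.le_of_dvd (Nat.pos_of_ne_zero hi0) h5
    have := Finset.mem_range.1 hi'
    omega
  · intro h
    exact absurd (Finset.mem_range.2 hd) h
  · intro i _
    rw [Finsupp.single_apply, if_neg]
    intro h4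
    have h5 := congrArg Prod.snd h4
    simp [Φ, hi.symm] at h5
    omega

theorem le_conjDepth (hk : 2 ≤ k) (S : Finset (Wreath (ZMod p) k))
    (hS : Subgroup.closure (S : Set (Wreath (ZMod p) k)) = ⊤) :
    ∃ C : ℕ, 0 < C ∧ ∀ a m N : ℕ, m * m ≤ a → C * p ^ a ≤ N →
      ((p ^ (p ^ a * (m + 1)) : ℕ) : ℕ∞) ≤ conjDepth S N := by
  have hp : p.Prime := Fact.out
  let i₀ : Fin k := ⟨0, by omega⟩
  let i₁ : Fin k := ⟨1, by omega⟩
  have hi : i₀ ≠ i₁ := by simp [i₀, i₁]
  obtain ⟨n₁, h₁⟩ := exists_ball hS (el (Finsupp.single 0 1) (Pi.single i₀ 1))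
  obtain ⟨n₂, h₂⟩ := exists_ball hS (el 0 (Pi.single i₀ 1))
  obtain ⟨n₃, h₃⟩ := exists_ball hS (el 0 (Pi.single i₁ 1))
  refine ⟨2 * n₁ + 3 * n₂ + 2 * n₃ + 1, by omega, fun a m N ham hN => ?_⟩
  have hL : glOrder p m ≤ p ^ a := (glOrder_le p m).trans (Nat.pow_le_pow_right hp.pos ham)
  refine (le_depth a m (Pi.single i₀ 1) (Pi.single i₁ 1)).trans (le_sSup ⟨_, _, ?_, ?_,
    not_isConj (p ^ a) (glOrder p m) (Nat.pow_pos hp.pos) (glOrder_pos hp.one_lt m) i₀ i₁ hi, rfl⟩)
  · have := ball_pow h₂ (p ^ a)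
    rw [el_zero_pow] at this
    exact ball_mono this (by nlinarith [Nat.zero_le (p ^ a)])
  · have b₁ := ball_pow h₁ (p ^ a)
    have b₂ := ball_pow h₂ (p ^ a)
    have b₃ := ball_pow h₃ (glOrder p m)
    rw [el_pow] at b₁
    rw [el_zero_pow] at b₂ b₃
    have b₄ := ball_mul b₁ (ball_inv b₂)
    have b₅ := ball_mul (ball_mul (ball_mul (ball_mul b₃ b₄) (ball_inv b₃)) (ball_inv b₄)) b₂
    have b₆ := Nat.mul_le_mul_left n₃ hL
    simp only [el_inv, el_mul, map_zero, neg_zero, add_zero, zero_add, add_neg_cancel, sh_zero,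
      ← sub_eq_add_neg] at b₅
    exact ball_mono b₅ (by nlinarith [Nat.zero_le (p ^ a)])

end Pool.Agent.Lib.MP_9ae5d9_al.X
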